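import Pool.Agent.H91.CF.TA
import Pool.Agent.H77.CN.UFC

/-!
# Row AUCF: the unfolded second moment with the mollifier coefficients
-/

set_option autoImplicit false
set_option linter.unusedVariables false

open MeasureTheory Set Filter
open scoped Real

namespace Pool.Agent.H92.CF

open Pool.Agent.H31.CN Pool.Agent.H91.CF
open Pool.Agent.H96.CN (Av Per2)

theorem sum_SDf (M : ℝ) (N f : ℕ) (hN : 1 ≤ N) (hsq : Squarefree N) (hrf : rd f ∣ f)
    (hnf : nf N f * rd f = N) (hcf : Nat.Coprime (nf N f) f)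
    (hfN : ∀ p, p.Prime → p ∣ f → p ∣ N) (g : ℕ → ℝ) :
    ∑ m ∈ SDf M N f, g m = ∑ n ∈ (nf N f).divisors, ∑ m ∈ (Finset.Icc 1 ⌊M⌋₊).filter
      (fun m => Squarefree m ∧ Nat.Coprime m N), g (n * m) := by
  have hnfN : nf N f ∣ N := ⟨rd f, hnf.symm⟩
  have hnf0 : nf N f ≠ 0 := fun h0 => by
    rw [h0, zero_mul] at hnf
    omega
  rw [← Finset.sum_product' (nf N f).divisors _ (fun n m => g (n * m))]
  refine Finset.sum_nbij' (fun m => (Nat.gcd m N, m / Nat.gcd m N)) (fun x => x.1 * x.2)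
    ?_ ?_ ?_ ?_ ?_
  · intro m hm
    unfold SDf at hm
    rw [Finset.mem_filter, Finset.mem_Icc] at hm
    obtain ⟨⟨h1, h2⟩, h3, h4, hmf⟩ := hm
    have hg : Nat.gcd m N * (m / Nat.gcd m N) = m := Nat.mul_div_cancel' (Nat.gcd_dvd_left m N)
    have hpos : 0 < m / Nat.gcd m N := by
      refine Nat.pos_of_ne_zero fun h0 => ?_
      rw [h0, mul_zero] at hg
      omega
    have hsm := h3
    rw [← hg, Nat.squarefree_mul_iff] at hsm
    rw [Finset.mem_product, Nat.mem_divisors, Finset.mem_filter, Finset.mem_Icc]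
    refine ⟨⟨?_, hnf0⟩, ⟨hpos, ?_⟩, hsm.2.2, ?_⟩
    · have h5 : Nat.gcd m N ∣ nf N f * rd f := by
        rw [hnf]
        exact Nat.gcd_dvd_right m N
      refine Nat.Coprime.dvd_of_dvd_mul_right ?_ h5
      exact (hmf.coprime_dvd_left (Nat.gcd_dvd_left m N)).coprime_dvd_right hrf
    · exact Nat.le_floor h4
    · have h5 : Nat.gcd (m / Nat.gcd m N) N ∣ Nat.gcd m N :=
        Nat.gcd_dvd_gcd_of_dvd_left _ (Dvd.intro_left _ hg)
      have h6 : Nat.gcd (m / Nat.gcd m N) N ∣ Nat.gcd (Nat.gcd m N) (m / Nat.gcd m N) :=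
        Nat.dvd_gcd h5 (Nat.gcd_dvd_left _ _)
      rw [Nat.Coprime.gcd_eq_one hsm.1] at h6
      exact Nat.dvd_one.1 h6
  · rintro ⟨n, m⟩ hx
    rw [Finset.mem_product, Nat.mem_divisors, Finset.mem_filter, Finset.mem_Icc] at hx
    obtain ⟨⟨h1', h2⟩, ⟨h3, h4⟩, h5, h6⟩ := hx
    simp only at h1' h3 h4 h5 h6
    have h1 : n ∣ N := h1'.trans hnfN
    have hn : n ≤ N := Nat.le_of_dvd (by omega) h1
    have hn0 : 0 < n := Nat.pos_of_dvd_of_pos h1 (by omega)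
    have hcop : Nat.Coprime n m := (Nat.Coprime.coprime_dvd_right h1 h6).symm
    have hgcd : Nat.gcd (n * m) N = n := by
      rw [Nat.Coprime.gcd_mul_right_cancel n h6]
      exact Nat.gcd_eq_left h1
    have hmf : Nat.Coprime m f := by
      refine Nat.Coprime.symm (Nat.coprime_of_dvd fun p hp hpf hpm => ?_)
      have h7 := Nat.dvd_gcd hpm (hfN p hp hpf)
      rw [Nat.Coprime.gcd_eq_one h6] at h7
      exact hp.one_lt.ne' (Nat.dvd_one.1 h7)
    unfold SDf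
    rw [Finset.mem_filter, Finset.mem_Icc]
    refine ⟨⟨Nat.mul_pos hn0 h3, Nat.mul_le_mul hn h4⟩, ?_, ?_, ?_⟩
    · exact (Nat.squarefree_mul_iff).2 ⟨hcop, hsq.squarefree_of_dvd h1, h5⟩
    · simp only
      rw [hgcd, Nat.mul_div_cancel_left m hn0]
      exact (Nat.le_floor_iff' (by omega)).1 h4
    · exact Nat.Coprime.mul_left (hcf.coprime_dvd_left h1') hmf
  · intro m _
    exact Nat.mul_div_cancel' (Nat.gcd_dvd_left m N)
  · rintro ⟨n, m⟩ hx
    rw [Finset.mem_product, Nat.mem_divisors, Finset.mem_filter, Finset.mem_Icc] at hx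
    obtain ⟨⟨h1', h2⟩, ⟨h3, h4⟩, h5, h6⟩ := hx
    simp only at h1' h3 h4 h5 h6
    have h1 : n ∣ N := h1'.trans hnfN
    have hn0 : 0 < n := Nat.pos_of_dvd_of_pos h1 (by omega)
    have hgcd : Nat.gcd (n * m) N = n := by
      rw [Nat.Coprime.gcd_mul_right_cancel n h6]
      exact Nat.gcd_eq_left h1
    simp only
    rw [hgcd, Nat.mul_div_cancel_left m hn0]
  · intro m _
    simp only
    rw [Nat.mul_div_cancel' (Nat.gcd_dvd_left m N)]

open Classical in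
theorem term_eqf {N f D n₁ n₂ d m₁ m₂ : ℕ} (lam : ℕ → ℤ → ℝ) (hf1 : 0 < f1 f)
    (hg : gdN N D) (hcop : Nat.Coprime (n₁ * n₂) (m₁ * m₂)) :
    Lam N lam D * anf N f n₁ D * anf N f n₂ D * cfd f d D *
      USg (rd f) d (rd f) (n₁ * m₁) (n₂ * m₂)
        (fun e A _ _ => if Nat.Coprime (e * A) f then 1 else 0) (f1 f ^ 2 * D) =
      USg (rd f) d (n₁ * n₂ * rd f) m₁ m₂ (wf N f lam n₁ n₂ d) (f1 f ^ 2 * D) := by
  unfold USg US
  rw [← tsum_mul_left]
  refine tsum_congr fun x => ?_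
  obtain ⟨e, A⟩ := x
  rw [Finset.mul_sum]
  refine Finset.sum_congr rfl fun B hB => ?_
  rw [Finset.mem_filter, Finset.mem_range] at hB
  obtain ⟨hB1, hB2⟩ := hB
  simp only at hB1 hB2
  have hA : 0 < A := by omega
  have hC : (4 * (A : ℤ) * (((B ^ 2 + f1 f ^ 2 * D) / (4 * A) : ℕ) : ℤ) - (B : ℤ) ^ 2) =
      (f1 f : ℤ) ^ 2 * (D : ℤ) := by
    have h5 : 4 * A * ((B ^ 2 + f1 f ^ 2 * D) / (4 * A)) = B ^ 2 + f1 f ^ 2 * D :=
      Nat.mul_div_cancel' hB2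
    have h6 : ((4 * A * ((B ^ 2 + f1 f ^ 2 * D) / (4 * A)) : ℕ) : ℤ) =
        ((B ^ 2 + f1 f ^ 2 * D : ℕ) : ℤ) := by rw [h5]
    rw [Nat.cast_mul, Nat.cast_mul, Nat.cast_add, Nat.cast_pow, Nat.cast_mul, Nat.cast_pow] at h6
    rw [Nat.cast_ofNat] at h6
    rw [h6]
    ring
  have hne : ((f1 f : ℤ) ^ 2) ≠ 0 := by
    have : (f1 f : ℤ) ≠ 0 := by exact_mod_cast hf1.ne'
    exact pow_ne_zero 2 this
  have hdiv : ((f1 f : ℤ) ^ 2 * (D : ℤ)) / (f1 f : ℤ) ^ 2 = D := Int.mul_ediv_cancel_left _ hne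
  have hw : wf N f lam n₁ n₂ d e A B (((B ^ 2 + f1 f ^ 2 * D) / (4 * A) : ℕ) : ℤ) =
      (if Nat.Coprime (e * A) f then 1 else 0) * (Lam N lam D * anf N f n₁ D * anf N f n₂ D *
      cfd f d D * Nw n₁ n₂ A B (((B ^ 2 + f1 f ^ 2 * D) / (4 * A) : ℕ) : ℤ) e) := by
    unfold wf
    rw [hC, hdiv]
    by_cases h : Nat.Coprime (e * A) f
    · rw [if_pos ⟨dvd_mul_right _ _, hg, h⟩, if_pos h, one_mul]
    · rw [if_neg (fun h' => h h'.2.2), if_neg h, zero_mul]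
  simp only [Int.toNat_natCast]
  rw [hw, Pool.Agent.H77.CN.Nw_mul n₁ n₂ m₁ m₂ A B _ e hcop]
  have h7 : ((rd f : ℕ) : ℝ) * ((n₁ * m₁ : ℕ) : ℝ) * ((n₂ * m₂ : ℕ) : ℝ) *
      Real.sqrt ((f1 f ^ 2 * D : ℕ) : ℝ) =
      ((n₁ * n₂ * rd f : ℕ) : ℝ) * m₁ * m₂ * Real.sqrt ((f1 f ^ 2 * D : ℕ) : ℝ) := by
    push_cast
    ring
  rw [h7, Nat.cast_mul (Nw n₁ n₂ A B _ e)]
  ring

/-- UCf -/
theorem pf_UCf (hTYP : T_TYP) (hRDF : T_RDF) : T_UCf := by
  intro P M N f D lam hf hN h2 hsq hfN hD hg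
  obtain ⟨r1, r2, r3, r4, r5, r6, r7, r8, r9, r10, r11, r12, r13⟩ := hRDF N f hf hsq hfN
  have hf1 : 0 < f1 f := by
    refine Nat.pos_of_ne_zero fun h0 => ?_
    rw [h0, mul_zero] at r3
    omega
  have hrf : rd f ∣ f := ⟨f1 f, r3.symm⟩
  have hnfN : nf N f ∣ N := ⟨rd f, r5.symm⟩
  have hz : ∀ m, ¬ (Squarefree m ∧ Nat.Coprime m N) → cm P M N m = 0 := by
    intro m hm
    unfold cm
    by_cases h : (m : ℝ) ≤ M ∧ Nat.Coprime m N
    · rw [if_pos h]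
      have hns : ¬ Squarefree m := fun h' => hm ⟨h', h.2⟩
      unfold mr
      rw [ArithmeticFunction.moebius_eq_zero_of_not_squarefree hns]
      simp
    · rw [if_neg h]
  have hCD : ∀ n m : ℕ, n ∣ nf N f → Nat.Coprime m N → CDf P M N f D (n * m) =
      anf N f n D * cm P M N m := by
    intro n m hn' hm
    have hn : n ∣ N := hn'.trans hnfN
    have hn0 : 0 < n := Nat.pos_of_dvd_of_pos hn (by omega)
    have hgcd : Nat.gcd (n * m) N = n := by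
      rw [Nat.Coprime.gcd_mul_right_cancel n hm]
      exact Nat.gcd_eq_left hn
    unfold CDf
    rw [hgcd, Nat.mul_div_cancel_left m hn0]
  have hcut : ∀ h : ℕ → ℝ, (∀ m, ¬ (Squarefree m ∧ Nat.Coprime m N) → h m = 0) →
      ∑ m ∈ (Finset.Icc 1 ⌊M⌋₊).filter (fun m => Squarefree m ∧ Nat.Coprime m N), h m =
        ∑ m ∈ Finset.Icc 1 ⌊M⌋₊, h m := by
    intro h hh
    rw [Finset.sum_filter]
    refine Finset.sum_congr rfl fun m _ => ?_
    by_cases h1 : Squarefree m ∧ Nat.Coprime m N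
    · rw [if_pos h1]
    · rw [if_neg h1, hh m h1]
  have key : ∀ n₁ ∈ (nf N f).divisors,
      ∀ m₁ ∈ (Finset.Icc 1 ⌊M⌋₊).filter (fun m => Squarefree m ∧ Nat.Coprime m N),
      Lam N lam D * ∑ m₂ ∈ SDf M N f,
        CDf P M N f D (n₁ * m₁) * CDf P M N f D m₂ * Uff (n₁ * m₁) m₂ f D =
      ∑ n₂ ∈ (nf N f).divisors, ∑ d ∈ (rd f).divisors,
        ∑ m₂ ∈ Finset.Icc 1 ⌊M⌋₊,
          cm P M N m₁ * cm P M N m₂ *
            USg (rd f) d (n₁ * n₂ * rd f) m₁ m₂ (wf N f lam n₁ n₂ d) (f1 f ^ 2 * D) := by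
    intro n₁ hn₁ m₁ hm₁
    have hd1 := Nat.dvd_of_mem_divisors hn₁
    rw [Finset.mem_filter, Finset.mem_Icc] at hm₁
    rw [sum_SDf M N f hN hsq hrf r5 r6 hfN, Finset.mul_sum]
    refine Finset.sum_congr rfl fun n₂ hn₂ => ?_
    have hd2 := Nat.dvd_of_mem_divisors hn₂
    rw [Finset.sum_comm, ← hcut]
    · rw [Finset.mul_sum]
      refine Finset.sum_congr rfl fun m₂ hm₂ => ?_
      rw [Finset.mem_filter, Finset.mem_Icc] at hm₂
      have hcop : Nat.Coprime (n₁ * n₂) (m₁ * m₂) := by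
        refine Nat.Coprime.mul_left ?_ ?_
        · exact Nat.Coprime.mul_right
            (Nat.Coprime.coprime_dvd_right (hd1.trans hnfN) hm₁.2.2).symm
            (Nat.Coprime.coprime_dvd_right (hd1.trans hnfN) hm₂.2.2).symm
        · exact Nat.Coprime.mul_right
            (Nat.Coprime.coprime_dvd_right (hd2.trans hnfN) hm₁.2.2).symm
            (Nat.Coprime.coprime_dvd_right (hd2.trans hnfN) hm₂.2.2).symm
      rw [hCD n₁ m₁ hd1 hm₁.2.2, hCD n₂ m₂ hd2 hm₂.2.2]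
      unfold Uff
      rw [Finset.mul_sum, Finset.mul_sum]
      refine Finset.sum_congr rfl fun d _ => ?_
      rw [← term_eqf lam hf1 hg hcop]
      ring
    · intro m hm
      refine Finset.sum_eq_zero fun d _ => ?_
      rw [hz m hm, mul_zero, zero_mul]
  unfold SDn
  rw [sum_SDf M N f hN hsq hrf r5 r6 hfN, mul_left_comm, Finset.mul_sum]
  congr 1
  refine Finset.sum_congr rfl fun n₁ hn₁ => ?_
  rw [Finset.mul_sum, Finset.sum_congr rfl (key n₁ hn₁), hcut]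
  · rw [Finset.sum_comm]
    refine Finset.sum_congr rfl fun n₂ _ => ?_
    rw [Finset.sum_comm]
  · intro m hm
    refine Finset.sum_eq_zero fun n₂ _ => Finset.sum_eq_zero fun d _ =>
      Finset.sum_eq_zero fun m₂ _ => ?_
    rw [hz m hm, zero_mul, zero_mul]

end Pool.Agent.H92.CF
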